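import Pool.Agent.V5helper51.ML.FIN
import Pool.Agent.V5helper72.MT.PR
import Pool.Agent.V5helper1.MT.WC
import Pool.Agent.V5helper6.MT.CNT
import Pool.Agent.V5helper62.MT.MV
import Pool.Agent.V5helper70.MT.AE
import Pool.Agent.V5helper32.ML.AEL
import Pool.Agent.V5helper53.ML.SEPL
import Pool.Agent.V5helper7.ML.CNTL
import Pool.Agent.V5helper18.ML.MVL

/-!
# Sums of `l ≤ k` values `x ^ k + q ⌊g(x)⌋` for almost all polynomials `g` of degree `k - 1` (MP_4e3e45_nt)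

The `k`-th power `x ^ k` is replaced by `x ^ k + q ⌊g(x)⌋`, `g(x) = α_1 x + α_2 x ^ 2 + ⋯ + α_(k-1) x ^ (k-1)` (`α_j` is
`α (j - 1)` below). The exceptional null set of `α ∈ ℝ ^ (k-1)` is the same for all `q`.
-/

set_option autoImplicit false

open Finset MeasureTheory Filter

namespace Pool.Agent.Results.MP_4e3e45_nt.AlmostAllPerturbations

/-- `g(x) = α_1 x + ⋯ + α_(k-1) x ^ (k-1)` -/
noncomputable def g (k : ℕ) (α : Fin (k - 1) → ℝ) (x : ℕ) : ℝ := ∑ j, α j * (x : ℝ) ^ ((j : ℕ) + 1)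

/-- the perturbed power `x ^ k + q ⌊g(x)⌋` -/
noncomputable def a (k q : ℕ) (α : Fin (k - 1) → ℝ) (x : ℕ) : ℤ := (x : ℤ) ^ k + q * ⌊g k α x⌋

/-- the number of the positive integers `n ≤ x` that are sums of `l` perturbed powers of nonnegative integers -/
noncomputable def A (k q l : ℕ) (α : Fin (k - 1) → ℝ) (x : ℝ) : ℕ :=
  {n : ℕ | 1 ≤ n ∧ (n : ℝ) ≤ x ∧ ∃ y : Fin l → ℕ, ∑ i, a k q α (y i) = n}.ncard

lemma eps (c : ℝ) (hc : 0 < c) (ε : ℝ) (hε : 0 < ε) : ∀ᶠ x : ℝ in atTop, x ^ (1 - ε) ≤ c * (x / Real.log x ^ 3) := by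
  have h1 := (isLittleO_log_rpow_rpow_atTop 3 hε).def hc
  filter_upwards [h1, eventually_gt_atTop 1] with x hx hx1
  have hx0 : 0 < x := by linarith
  have hl : 0 < Real.log x := Real.log_pos hx1
  have hl3 : 0 < Real.log x ^ 3 := by positivity
  rw [Real.norm_of_nonneg (by positivity), Real.norm_of_nonneg (by positivity)] at hx
  have h2 : Real.log x ^ (3 : ℝ) = Real.log x ^ 3 := by
    rw [← Real.rpow_natCast]; norm_num
  rw [h2] at hx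
  rw [Real.rpow_sub hx0, Real.rpow_one, ← mul_div_assoc, div_le_div_iff₀ (by positivity) hl3]
  nlinarith

/-- **The two questions of the row for almost all perturbations.** -/
theorem result (k : ℕ) (hk : 2 ≤ k) : ∃ c : ℝ, 0 < c ∧ ∀ᵐ α : Fin (k - 1) → ℝ, ∀ q : ℕ, 1 ≤ q →
    -- (1) the order of magnitude for fewer than `k` terms
    (∀ l : ℕ, 1 ≤ l → l < k → ∀ᶠ x : ℝ in atTop, c * x ^ ((l : ℝ) / k) < A k q l α x) ∧
    -- (2) `k` terms
    (∀ᶠ x : ℝ in atTop, c * (x / Real.log x ^ 3) < A k q k α x) ∧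
    (∀ ε : ℝ, 0 < ε → ∀ᶠ x : ℝ in atTop, x ^ (1 - ε) < A k q k α x) := by
  have hWC := Pool.Agent.V5helper1.MT.t_WC
  have hPR := Pool.Agent.V5helper72.MT.t_PR
  have hAE := Pool.Agent.V5helper70.MT.t_AE (Pool.Agent.V5helper62.MT.t_MV (Pool.Agent.V5helper6.MT.t_CNT hWC) hPR)
  have hAEL : Pool.Agent.V5helper51.ML.S_AEL := Pool.Agent.V5helper32.ML.t_AEL
    (Pool.Agent.V5helper18.ML.t_MVL (Pool.Agent.V5helper7.ML.t_CNTL hWC) (Pool.Agent.V5helper53.ML.t_SEPL hWC) hPR)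
  have h1 : ∀ᵐ α : Fin (k - 1) → ℝ, ∀ l : ℕ, 1 ≤ l → l < k → ∀ q : ℕ, 1 ≤ q → ∃ m₀ : ℕ, ∀ m ≥ m₀,
      (((Pool.Agent.V5helper51.ML.boxl l (2 ^ m) ×ˢ Pool.Agent.V5helper51.ML.boxl l (2 ^ m)).filter
        fun p : (Fin l → ℕ) × (Fin l → ℕ) => p.1 ≠ p.2 ∧
          ∑ i, Pool.Agent.V5helper51.MT.a k q α (p.1 i) = ∑ i, Pool.Agent.V5helper51.MT.a k q α (p.2 i)).card : ℝ) ≤
        ((2 : ℝ) ^ m) ^ (l - 1) * (m : ℝ) ^ 3 := by
    rw [ae_all_iff]; intro l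
    rw [eventually_imp_distrib_left]; intro hl
    rw [eventually_imp_distrib_left]; intro hlk
    exact hAEL k l hl hlk
  have hkpos : (0 : ℝ) < k := by positivity
  refine ⟨1 / (8 * (((4 * k * (2 * k + 1) ^ k : ℕ) : ℝ) * 2 ^ k)), by positivity, ?_⟩
  filter_upwards [h1, hAE k hk] with α h1 h2 q hq
  have h3 : ∀ᶠ x : ℝ in atTop, 1 / (8 * (((4 * k * (2 * k + 1) ^ k : ℕ) : ℝ) * 2 ^ k)) * (x / Real.log x ^ 3) <
      A k q k α x := Pool.Agent.V5helper51.ML.top k hk q α (h2 q hq)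
  refine ⟨fun l hl hlk => Pool.Agent.V5helper51.ML.low k l hl hlk q α (h1 l hl hlk q hq), h3, fun ε hε => ?_⟩
  filter_upwards [h3, eps (1 / (8 * (((4 * k * (2 * k + 1) ^ k : ℕ) : ℝ) * 2 ^ k))) (by positivity) ε hε] with x hx1 hx2
  exact lt_of_le_of_lt hx2 hx1

end Pool.Agent.Results.MP_4e3e45_nt.AlmostAllPerturbations
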